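import Pool.Prelude.Def_F_c31e40fa
import Pool.Agent.R240.Count
import Pool.Agent.Y736.HG7
import Pool.Agent.H548R3.MB.Eff2

set_option autoImplicit false

open Filter Topology MeasureTheory Set Metric Complex N62a1eb23

namespace Pool.Agent.Results.MP_af9036_an.CentresHarmonicMeasure

open Pool.Agent.H713R2

/-- The map `z ↦ z ^ d + c`. -/
def f (d : ℕ) (c : ℂ) : ℂ → ℂ := fun z => z ^ d + c

/-- The angles `t ∈ (0, 2π]` of the parameter rays that land in the open disc of radius `r` about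
`c`. -/
def angles (ψ : ℂ → ℂ) (c : ℂ) (r : ℝ) : Set ℝ :=
  {t | t ∈ Ioc 0 (2 * Real.pi) ∧ ∃ ζ ∈ ball c r,
    Tendsto (fun ρ : ℝ => ψ (ρ * exp (t * I))) (𝓝[>] 1) (𝓝 ζ)}

/-- The harmonic measure (from infinity) of the open disc of radius `r` about `c`. -/
noncomputable def harm (ψ : ℂ → ℂ) (c : ℂ) (r : ℝ) : ℝ :=
  (volume (angles ψ c r)).toReal / (2 * Real.pi)

/-- The superattracting parameters of period dividing `n` in the open disc of radius `r` about
`c`. -/
def centres (d n : ℕ) (c : ℂ) (r : ℝ) : Set ℂ := {c' | c' ∈ ball c r ∧ (f d c')^[n] 0 = 0}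

/-- The number of superattracting parameters of period dividing `n` in every disc is at least a
fixed proportion of `d ^ (n - 1)` times the harmonic measure of the concentric disc of half the
radius, minus one, with a constant that does not depend on the degree `d`. -/
theorem result :
    ∃ a : ℝ, 0 < a ∧ ∀ d : ℕ, 2 ≤ d →
      (∃ ψ : ℂ → ℂ, IsExteriorMap (multibrotSet d) ψ) ∧
      ∀ ψ : ℂ → ℂ, IsExteriorMap (multibrotSet d) ψ →
        -- almost every parameter ray lands, at a point of the Multibrot set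
        (∀ᵐ t : ℝ, ∃ ζ ∈ multibrotSet d,
          Tendsto (fun ρ : ℝ => ψ (ρ * exp (t * I))) (𝓝[>] 1) (𝓝 ζ)) ∧
        ∀ n : ℕ, 1 ≤ n → ∀ (c : ℂ) (r : ℝ), 0 < r →
          (centres d n c (2 * r)).Finite ∧
          (∀ c' ∈ centres d n c (2 * r), IsAttractingCycle (f d c') n 0) ∧
          a * (d : ℝ) ^ (n - 1) * harm ψ c r ≤ (centres d n c (2 * r)).ncard + 1 := by
  have hK := Pool.Agent.R240.KK_pos
  have hpi := Real.pi_pos
  refine ⟨2 * Real.pi / Pool.Agent.R240.KK, by positivity, ?_⟩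
  intro d hd
  obtain ⟨β, hβ⟩ := exists_beta (d := d) hd
  refine ⟨⟨_, exteriorMap_of_beta hβ⟩, ?_⟩
  intro ψ hψ
  refine ⟨?_, ?_⟩
  · filter_upwards [Pool.Agent.Y736.HG.ae_land hd hψ] with t ht
    obtain ⟨ζ, hζ⟩ := ht
    exact ⟨ζ, Pool.Agent.R240.land_mem hd hψ hζ, hζ⟩
  · intro n hn c r hr
    obtain ⟨N, rfl⟩ : ∃ N, n = N + 1 := ⟨n - 1, by omega⟩
    refine ⟨Pool.Agent.R240.Zs_finite hd N c r, ?_, ?_⟩
    · rintro c' ⟨-, hc'⟩
      exact Pool.Agent.H548R3.MB.att_of_centre hd (by omega) hc'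
    · have h := Pool.Agent.R240.main hd hψ N c hr
      have h1 : harm ψ c r = Pool.Agent.R240.om ψ (ball c r) / (2 * Real.pi) := rfl
      have h2 : (centres d (N + 1) c (2 * r)).ncard = (Pool.Agent.R240.Zs d N c r).ncard := rfl
      rw [h1, h2, Nat.add_sub_cancel]
      have h3 : 2 * Real.pi / Pool.Agent.R240.KK * (d : ℝ) ^ N *
          (Pool.Agent.R240.om ψ (ball c r) / (2 * Real.pi)) =
          (d : ℝ) ^ N * Pool.Agent.R240.om ψ (ball c r) / Pool.Agent.R240.KK := by
        field_simp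
      rw [h3, div_le_iff₀ hK]
      linarith

end Pool.Agent.Results.MP_af9036_an.CentresHarmonicMeasure
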