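import Pool.Prelude.Def_F_c31e40fa
import Pool.Agent.R240.Count
import Pool.Agent.R240.Size

set_option autoImplicit false

open Filter Topology MeasureTheory Set Metric Complex N62a1eb23

namespace Pool.Agent.Results.MP_af9036_an.HyperbolicDiscs

open Pool.Agent.H713R2

/-- The map `z ↦ z ^ d + c`. -/
def f (d : ℕ) (c : ℂ) : ℂ → ℂ := fun z => z ^ d + c

/-- The parameters `c` for which `z ^ d + c` has an attracting cycle of period dividing `n`. -/
def Hyp (d n : ℕ) : Set ℂ := {c | ∃ z, IsAttractingCycle (f d c) n z}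

/-- The angles `t ∈ (0, 2π]` of the parameter rays that land in the open disc of radius `r` about
`c`. -/
def angles (ψ : ℂ → ℂ) (c : ℂ) (r : ℝ) : Set ℝ :=
  {t | t ∈ Ioc 0 (2 * Real.pi) ∧ ∃ ζ ∈ ball c r,
    Tendsto (fun ρ : ℝ => ψ (ρ * exp (t * I))) (𝓝[>] 1) (𝓝 ζ)}

/-- The harmonic measure (from infinity) of the open disc of radius `r` about `c`. -/
noncomputable def harm (ψ : ℂ → ℂ) (c : ℂ) (r : ℝ) : ℝ :=
  (volume (angles ψ c r)).toReal / (2 * Real.pi)

theorem harm_le (ψ : ℂ → ℂ) (c : ℂ) (r : ℝ) : harm ψ c r ≤ 1 := by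
  have hpi := Real.pi_pos
  unfold harm
  rw [div_le_one (by positivity)]
  have h1 : volume (angles ψ c r) ≤ ENNReal.ofReal (2 * Real.pi) := by
    refine (measure_mono (fun t ht => ht.1)).trans ?_
    rw [Real.volume_Ioc, sub_zero]
  refine (ENNReal.toReal_mono ENNReal.ofReal_ne_top h1).trans ?_
  rw [ENNReal.toReal_ofReal (by positivity)]

/-- **Discs of hyperbolic parameters of explicit size in every disc which meets the boundary.** The
constant `a` does not depend on the degree. -/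
theorem result :
    ∃ a : ℝ, 0 < a ∧ ∀ d : ℕ, 2 ≤ d →
      (∃ ψ : ℂ → ℂ, IsExteriorMap (multibrotSet d) ψ) ∧
      ∀ ψ : ℂ → ℂ, IsExteriorMap (multibrotSet d) ψ →
        -- in terms of the period `n`
        (∀ (n : ℕ) (c : ℂ) (r : ℝ), 1 ≤ n → 0 < r → 2 ≤ a * (d : ℝ) ^ (n - 1) * harm ψ c r →
          ∃ c' : ℂ, ball c' (min r (1 / (32 * (n * d) * (2 * d : ℝ) ^ ((n * d : ℝ) / (d - 1))))) ⊆
            ball c (3 * r) ∩ Hyp d n) ∧
        -- in terms of the harmonic measure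
        ∃ κ : ℝ, 0 < κ ∧ ∀ (c : ℂ) (r : ℝ), 0 < r → 0 < harm ψ c r →
          ∃ (n : ℕ) (c' : ℂ), ball c' (min r (κ * harm ψ c r ^ (d / (d - 1 : ℝ) *
            (1 + Real.log 2 / Real.log d)) / (1 + Real.log (1 / harm ψ c r)))) ⊆
              ball c (3 * r) ∩ Hyp d n := by
  have hK := Pool.Agent.R240.KK_pos
  have hpi := Real.pi_pos
  obtain ⟨a, ha⟩ : ∃ a, a = min 1 (2 * Real.pi / Pool.Agent.R240.KK) := ⟨_, rfl⟩
  have ha0 : 0 < a := by rw [ha]; exact lt_min one_pos (by positivity)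
  have ha1 : a ≤ 1 := by rw [ha]; exact min_le_left _ _
  have haK : a ≤ 2 * Real.pi / Pool.Agent.R240.KK := by rw [ha]; exact min_le_right _ _
  refine ⟨a, ha0, ?_⟩
  intro d hd
  have hdR : (2 : ℝ) ≤ d := by exact_mod_cast hd
  have hd1 : (0 : ℝ) < d - 1 := by linarith
  obtain ⟨β, hβ⟩ := exists_beta (d := d) hd
  refine ⟨⟨_, exteriorMap_of_beta hβ⟩, ?_⟩
  intro ψ hψ
  have hmain : ∀ (n : ℕ) (c : ℂ) (r : ℝ), 1 ≤ n → 0 < r →
      2 ≤ a * (d : ℝ) ^ (n - 1) * harm ψ c r →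
      ∃ c' : ℂ, ball c' (min r (1 / (32 * (n * d) * (2 * d : ℝ) ^ ((n * d : ℝ) / (d - 1))))) ⊆
        ball c (3 * r) ∩ Hyp d n := by
    intro n c r hn hr h2
    obtain ⟨N, rfl⟩ : ∃ N, n = N + 1 := ⟨n - 1, by omega⟩
    have h := Pool.Agent.R240.main hd hψ N c hr
    have h1 : harm ψ c r = Pool.Agent.R240.om ψ (ball c r) / (2 * Real.pi) := rfl
    rw [Nat.add_sub_cancel] at h2
    have h3 : 0 ≤ (d : ℝ) ^ N * harm ψ c r := by
      unfold harm
      positivity
    have h4 : 2 ≤ 2 * Real.pi / Pool.Agent.R240.KK * ((d : ℝ) ^ N * harm ψ c r) := by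
      calc (2 : ℝ) ≤ a * ((d : ℝ) ^ N * harm ψ c r) := by linarith
        _ ≤ _ := mul_le_mul_of_nonneg_right haK h3
    have h5 : 2 * Real.pi / Pool.Agent.R240.KK * ((d : ℝ) ^ N * harm ψ c r) =
        (d : ℝ) ^ N * Pool.Agent.R240.om ψ (ball c r) / Pool.Agent.R240.KK := by
      rw [h1]
      field_simp
    rw [h5, le_div_iff₀ hK] at h4
    have h6 : 0 < (Pool.Agent.R240.Zs d N c r).ncard := by
      by_contra hcon
      have h7 : (Pool.Agent.R240.Zs d N c r).ncard = 0 := by omega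
      rw [h7] at h
      norm_num at h
      nlinarith
    obtain ⟨c', hc'⟩ := Set.nonempty_of_ncard_ne_zero h6.ne'
    have hc'1 : c' ∈ ball c (2 * r) := hc'.1
    have hc'2 : (f d c')^[N + 1] 0 = 0 := hc'.2
    have hmem : c' ∈ multibrotSet d := by
      intro ht
      have hper : ∀ k : ℕ, (fun z : ℂ => z ^ d + c')^[(N + 1) * k] 0 = 0 := by
        intro k
        induction k with
        | zero => rfl
        | succ k ih =>
          rw [Nat.mul_succ, Function.iterate_add_apply]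
          have h8 : (fun z : ℂ => z ^ d + c')^[N + 1] 0 = 0 := hc'2
          rw [h8]
          exact ih
      have h8 : Tendsto (fun k : ℕ => (N + 1) * k) atTop atTop :=
        tendsto_id.const_mul_atTop' (by omega)
      have h9 := ht.comp h8
      have h10 : Tendsto (fun _ : ℕ => (0 : ℂ)) atTop (Bornology.cobounded ℂ) :=
        h9.congr fun k => hper k
      exact not_tendsto_const_atTop (‖(0 : ℂ)‖) (atTop : Filter ℕ)
        (tendsto_norm_cobounded_atTop.comp h10)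
    refine ⟨c', ?_⟩
    intro x hx
    rw [mem_ball, dist_eq_norm] at hx
    refine ⟨?_, ?_⟩
    · rw [mem_ball] at hc'1 ⊢
      have h8 := dist_triangle x c' c
      rw [dist_eq_norm x c'] at h8
      have h9 := hx.trans_le (min_le_left _ _)
      linarith
    · exact Pool.Agent.R240.Size.disc hd (by omega) hmem hc'2 (hx.trans_le (min_le_right _ _)).le
  refine ⟨hmain, ?_⟩
  obtain ⟨L, hL⟩ : ∃ L, L = Real.log d := ⟨_, rfl⟩
  have hL0 : 0 < L := by rw [hL]; exact Real.log_pos (by linarith)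
  obtain ⟨E, hE⟩ : ∃ E : ℝ, E = d / (d - 1 : ℝ) * (1 + Real.log 2 / L) := ⟨_, rfl⟩
  have hlog2 : 0 < Real.log 2 := Real.log_pos (by norm_num)
  have hE0 : 0 < E := by rw [hE]; positivity
  obtain ⟨X, hX⟩ : ∃ X : ℝ, X = 2 * d ^ 2 / a := ⟨_, rfl⟩
  have hX0 : 0 < X := by rw [hX]; positivity
  have hX1 : 1 ≤ X := by
    rw [hX, le_div_iff₀ ha0]
    nlinarith
  have hlX : 0 ≤ Real.log X := Real.log_nonneg hX1
  refine ⟨L / (32 * d * (1 + Real.log X) * X ^ E), by positivity, ?_⟩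
  intro c r hr hh
  rw [← hL, ← hE]
  obtain ⟨h, hhe⟩ : ∃ h, h = harm ψ c r := ⟨_, rfl⟩
  have hh1 : h ≤ 1 := by rw [hhe]; exact harm_le ψ c r
  rw [← hhe] at hh ⊢
  have hex : ∃ N : ℕ, 2 ≤ a * (d : ℝ) ^ N * h := by
    obtain ⟨N, hN⟩ := pow_unbounded_of_one_lt (2 / (a * h)) (by linarith : (1 : ℝ) < d)
    refine ⟨N, ?_⟩
    rw [div_lt_iff₀ (by positivity)] at hN
    linarith
  classical
  obtain ⟨N, hN1, hN2⟩ : ∃ N : ℕ, 2 ≤ a * (d : ℝ) ^ N * h ∧ ∀ m < N, ¬ 2 ≤ a * (d : ℝ) ^ m * h :=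
    ⟨Nat.find hex, Nat.find_spec hex, fun m hm => Nat.find_min hex hm⟩
  have hdn : (d : ℝ) ^ (N + 1) ≤ X / h := by
    rw [hX, le_div_iff₀ hh, le_div_iff₀ ha0]
    rcases Nat.eq_zero_or_pos N with h0 | h0
    · rw [h0, zero_add, pow_one]
      have h1 : h * a ≤ 1 := by nlinarith
      have h2 : (d : ℝ) * (h * a) ≤ d * 1 := by gcongr
      nlinarith
    · have h1 := hN2 (N - 1) (by omega)
      push Not at h1
      have h2 : (d : ℝ) ^ (N + 1) = d ^ 2 * d ^ (N - 1) := by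
        rw [← pow_add]
        congr 1
        omega
      rw [h2]
      have h3 : (d : ℝ) ^ 2 * (a * (d : ℝ) ^ (N - 1) * h) ≤ d ^ 2 * 2 := by gcongr
      linarith
  obtain ⟨c', hc'⟩ := hmain (N + 1) c r (by omega) hr (by rw [Nat.add_sub_cancel, ← hhe]; exact hN1)
  refine ⟨N + 1, c', ?_⟩
  refine (ball_subset_ball ?_).trans hc'
  apply min_le_min_left
  have hNR : (0 : ℝ) < ((N + 1 : ℕ) : ℝ) := by positivity
  have hlh : 0 ≤ Real.log (1 / h) := Real.log_nonneg (by rw [le_div_iff₀ hh]; linarith)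
  have hn : ((N + 1 : ℕ) : ℝ) * L ≤ (1 + Real.log X) * (1 + Real.log (1 / h)) := by
    have h1 := Real.log_le_log (by positivity) hdn
    rw [Real.log_pow, ← hL, div_eq_mul_one_div X h, Real.log_mul hX0.ne' (by positivity)] at h1
    nlinarith
  have hpow : (2 * d : ℝ) ^ ((((N + 1 : ℕ) : ℝ) * d) / (d - 1)) ≤ X ^ E / h ^ E := by
    have h1 : (2 * d : ℝ) ^ ((((N + 1 : ℕ) : ℝ) * d) / (d - 1)) = ((d : ℝ) ^ (N + 1)) ^ E := by
      rw [Real.rpow_def_of_pos (by positivity), Real.rpow_def_of_pos (by positivity),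
        Real.log_pow, Real.log_mul (by norm_num) (by positivity), ← hL, hE]
      congr 1
      field_simp
      ring
    rw [h1, ← Real.div_rpow hX0.le hh.le]
    exact Real.rpow_le_rpow (by positivity) hdn hE0.le
  have hhE : 0 < h ^ E := Real.rpow_pos_of_pos hh _
  have hXE : 0 < X ^ E := Real.rpow_pos_of_pos hX0 _
  rw [le_div_iff₀ hhE] at hpow
  rw [div_le_div_iff₀ (by positivity) (by positivity)]
  have h2 : L / (32 * d * (1 + Real.log X) * X ^ E) * h ^ E *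
      (32 * (((N + 1 : ℕ) : ℝ) * d) * (2 * d : ℝ) ^ ((((N + 1 : ℕ) : ℝ) * d) / (d - 1))) =
      (((N + 1 : ℕ) : ℝ) * L) * ((2 * d : ℝ) ^ ((((N + 1 : ℕ) : ℝ) * d) / (d - 1)) * h ^ E) /
        ((1 + Real.log X) * X ^ E) := by
    field_simp
  rw [h2, div_le_iff₀ (by positivity)]
  calc _ ≤ ((1 + Real.log X) * (1 + Real.log (1 / h))) * X ^ E := by gcongr
    _ = _ := by ring

end Pool.Agent.Results.MP_af9036_an.HyperbolicDiscs
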