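import Pool.Prelude.Def_F_c31e40fa
import Pool.Agent.R240.LL4
import Pool.Agent.H548R3.MB.Eff2

set_option autoImplicit false

open Filter Topology MeasureTheory Set Metric Complex N62a1eb23

namespace Pool.Agent.Results.MP_af9036_an.LocalLaw

open Pool.Agent.H713R2

/-- The map `z ↦ z ^ d + c`. -/
def f (d : ℕ) (c : ℂ) : ℂ → ℂ := fun z => z ^ d + c

/-- The angles `t ∈ (0, 2π]` of the parameter rays that land in the open disc of radius `r` about
`c`. -/
def angles (ψ : ℂ → ℂ) (c : ℂ) (r : ℝ) : Set ℝ :=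
  {t | t ∈ Ioc 0 (2 * Real.pi) ∧ ∃ ζ ∈ ball c r,
    Tendsto (fun ρ : ℝ => ψ (ρ * exp (t * I))) (𝓝[>] 1) (𝓝 ζ)}

/-- The harmonic measure (from infinity) of the open disc of radius `r` about `c`. -/
noncomputable def harm (ψ : ℂ → ℂ) (c : ℂ) (r : ℝ) : ℝ :=
  (volume (angles ψ c r)).toReal / (2 * Real.pi)

/-- The superattracting parameters of period dividing `n` in the open disc of radius `r` about
`c`. -/
def centres (d n : ℕ) (c : ℂ) (r : ℝ) : Set ℂ := {c' | c' ∈ ball c r ∧ (f d c')^[n] 0 = 0}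

theorem centres_eq {d : ℕ} (hd : 2 ≤ d) (N : ℕ) (c : ℂ) (r : ℝ) : centres d (N + 1) c r =
    (((Pool.Agent.R240.LL.ZZ d N).filter (fun a => ‖a - c‖ < r) : Finset ℂ) : Set ℂ) := by
  ext a
  rw [Finset.mem_coe, Finset.mem_filter, Pool.Agent.R240.LL.mem_ZZ hd]
  show (a ∈ ball c r ∧ (f d a)^[N + 1] 0 = 0) ↔ _
  rw [mem_ball, dist_eq_norm, and_comm]
  exact Iff.rfl

/-- **Local law for the superattracting parameters.** In the discs about the points of the Multibrot
set `M_d`, at all places, all scales and for all periods, the number of superattracting parameters of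
period dividing `n` is `d ^ (n - 1)` times the harmonic measure, in both directions, up to an error
of size `n log d / δ` and a change of the radius by the factor `1 + δ`. -/
theorem result :
    ∃ K : ℝ, 0 < K ∧ ∀ d : ℕ, 2 ≤ d →
      (∃ ψ : ℂ → ℂ, IsExteriorMap (multibrotSet d) ψ) ∧
      ∀ ψ : ℂ → ℂ, IsExteriorMap (multibrotSet d) ψ →
        ∀ c ∈ multibrotSet d, ∀ n : ℕ, 1 ≤ n → ∀ r δ : ℝ, 0 < r → 0 < δ → δ ≤ 1 →
          (centres d n c r).Finite ∧
          (∀ c' ∈ centres d n c r, IsAttractingCycle (f d c') n 0) ∧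
          ((centres d n c r).ncard : ℝ) ≤
            (d : ℝ) ^ (n - 1) * harm ψ c ((1 + δ) * r) + K * n * Real.log d / δ ∧
          (d : ℝ) ^ (n - 1) * harm ψ c r ≤
            (centres d n c ((1 + δ) * r)).ncard + K * n * Real.log d / δ := by
  refine ⟨Pool.Agent.R240.LL.KL, Pool.Agent.R240.LL.KL_pos, ?_⟩
  intro d hd
  obtain ⟨β, hβ⟩ := exists_beta (d := d) hd
  refine ⟨⟨_, exteriorMap_of_beta hβ⟩, ?_⟩
  intro ψ hψ c hc n hn r δ hr hδ0 hδ1
  obtain ⟨N, rfl⟩ : ∃ N, n = N + 1 := ⟨n - 1, by omega⟩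
  obtain ⟨h1, h2⟩ := Pool.Agent.R240.LL.law hd hψ hc N hr hδ0 hδ1
  rw [Nat.add_sub_cancel, centres_eq hd, centres_eq hd, Set.ncard_coe_finset,
    Set.ncard_coe_finset]
  refine ⟨Finset.finite_toSet _, ?_, h1, h2⟩
  intro c' hc'
  rw [Finset.mem_coe, Finset.mem_filter, Pool.Agent.R240.LL.mem_ZZ hd] at hc'
  exact Pool.Agent.H548R3.MB.att_of_centre hd (by omega) hc'.1

end Pool.Agent.Results.MP_af9036_an.LocalLaw
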