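import Pool.Agent.R241.NB7

/-!
# MP_af9036_an: non-autonomous density of hyperbolicity

Let `d ≥ 2`. We show that hyperbolicity is dense in the space of all bounded sequences of maps
`z ↦ z ^ d + c k`, with the supremum norm: every bounded sequence `c` of parameters can be perturbed
by less than `ε` to a sequence for which all postcritical orbits are uniformly exponentially stable
on the Riemann sphere. All constants, and the finite set of the perturbations which are used, depend
only on `d`, `ε` and a bound for `c`.

Idea of the proof. Cut the time into long blocks. A point which stays bounded for a whole block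
under all small perturbations is contracted by the lemma of Schwarz; from every other point some
word of perturbations leads to infinity. With random perturbations, which are rare, the expectation
of a small power of the derivative over a block is therefore less than one for every starting point,
so that one can choose the perturbations one after the other such that finitely many orbits are
stable (greedy choice). There are infinitely many critical orbits; after a long window the old ones
are represented, up to an error which is exponentially small in the length of the window, by a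
number of orbits which is linear in the length, while the constants of the greedy choice grow only
polynomially.
-/

set_option autoImplicit false

namespace Pool.Agent.Results.MP_af9036_an.NonAutonomousDensity

open Pool.Agent.R241.SK (chordal)

/-- The composition of the `N` maps `z ↦ z ^ d + c k`, `k = n, n + 1, ..., n + N - 1`, where the
map with `k = n` is applied first. -/
noncomputable def comp (d : ℕ) (c : ℕ → ℂ) (n : ℕ) : ℕ → ℂ → ℂ
  | 0, z => z
  | N + 1, z => comp d c n N z ^ d + c (n + N)

/-- The sequence of the maps `z ↦ z ^ d + c k` is hyperbolic with the constants `δ`, `C`, `θ`: for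
every starting time `n` and every age `m` of the orbit of the critical point `0`, all points at
distance less than `δ` from the orbit are attracted by it, exponentially in the chordal metric. -/
def Hyperbolic (d : ℕ) (c : ℕ → ℂ) (δ C θ : ℝ) : Prop :=
  ∀ (n m : ℕ) (w : ℂ), ‖w - comp d c n m 0‖ < δ → ∀ N : ℕ,
    chordal (comp d c (n + m) N w) (comp d c (n + m) N (comp d c n m 0)) ≤
      C * θ ^ N * ‖w - comp d c n m 0‖

theorem comp_eq (d : ℕ) (c : ℕ → ℂ) (n N : ℕ) (z : ℂ) :
    comp d c n N z = Pool.Agent.R241.NR.S (Pool.Agent.R241.NA.pw d)
      (Pool.Agent.R241.NA.after c n) N z := by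
  induction N with
  | zero => rfl
  | succ N ih =>
    rw [comp, ih]
    rfl

/-- Hyperbolicity is dense in the space of bounded sequences of maps `z ↦ z ^ d + c k`. -/
theorem result (d : ℕ) (hd : 2 ≤ d) (R ε : ℝ) (hε : 0 < ε) :
    ∃ (V : Finset ℂ) (δ C θ : ℝ), (∀ v ∈ V, ‖v‖ < ε) ∧ 0 < δ ∧ 0 < θ ∧ θ < 1 ∧
      ∀ c : ℕ → ℂ, (∀ k, ‖c k‖ ≤ R) →
        ∃ a : ℕ → ℂ, (∀ k, a k ∈ V) ∧ Hyperbolic d (fun k => c k + a k) δ C θ := by
  obtain ⟨V, δ, C, θ, hV, hδ, hθ0, hθ1, h⟩ := Pool.Agent.R241.NA.main hd (le_max_right R 0) hε
  refine ⟨V, δ, C, θ, hV, hδ, hθ0, hθ1, fun c hc => ?_⟩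
  obtain ⟨a, ha, h1⟩ := h c fun k => (hc k).trans (le_max_left _ _)
  refine ⟨a, ha, fun n m w hw N => ?_⟩
  have h2 := h1 n m w (by
    unfold Pool.Agent.R241.NA.cr
    rw [← comp_eq]
    exact hw) N
  unfold Pool.Agent.R241.NA.cr at h2
  simp only [← comp_eq] at h2
  exact h2

end Pool.Agent.Results.MP_af9036_an.NonAutonomousDensity
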